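import Mathlib

set_option autoImplicit false

namespace Pool.Agent.Results.MP_cb142b_pr.AllGraphs

open MeasureTheory Set Finset
open scoped ENNReal Classical

variable {V : Type} [Fintype V] (G : SimpleGraph V)

/-- transition matrix of the jump chain -/
noncomputable def P (x y : V) : ℝ := if G.Adj x y then 1 / (G.degree x : ℝ) else 0

/-- stationary law -/
noncomputable def st (x : V) : ℝ := (G.degree x : ℝ) / (2 * (G.edgeFinset.card : ℝ))

/-- Dirichlet form -/
noncomputable def dir (h : V → ℝ) : ℝ := 1 / 2 * ∑ x, ∑ y, st G x * P G x y * (h x - h y) ^ 2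

/-- variance under the stationary law -/
noncomputable def var (h : V → ℝ) : ℝ := ∑ x, st G x * (h x - ∑ y, st G y * h y) ^ 2

/-- spectral profile -/
noncomputable def prof (ε : ℝ) : ℝ≥0∞ :=
  ⨅ (h : V → ℝ) (_ : var G h = 1 ∧ ∑ x with h x ≠ 0, st G x ≤ ε), ENNReal.ofReal (dir G h)

/-- spectral-profile time -/
noncomputable def tsp : ℝ≥0∞ :=
  ∫⁻ δ in Ioo (4 * ⨅ x, st G x) 16, 2 / (ENNReal.ofReal δ * prof G δ)

/-- probability that the jump chain from `x` is never at `y` at steps `0, …, k` -/
noncomputable def avoid (y : V) : ℕ → V → ℝ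
  | 0, x => if x = y then 0 else 1
  | k + 1, x => if x = y then 0 else ∑ z, P G x z * avoid y k z

/-- expected hitting time: the integral over `t` of the probability that `T_y > t` -/
noncomputable def hit (x y : V) : ℝ≥0∞ :=
  ∫⁻ t in Ioi (0 : ℝ),
    ∑' k : ℕ, ENNReal.ofReal (Real.exp (-t) * t ^ k / (k.factorial : ℝ) * avoid G y k x)

/-- maximal expected hitting time -/
noncomputable def thit : ℝ≥0∞ := ⨆ (x : V) (y : V), hit G x y

lemma P_nonneg (x y : V) : 0 ≤ P G x y := by unfold P; split_ifs <;> positivity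

lemma st_nonneg (x : V) : 0 ≤ st G x := by unfold st; positivity

lemma avoid_nonneg (y : V) (k : ℕ) (x : V) : 0 ≤ avoid G y k x := by
  induction k generalizing x with
  | zero => unfold avoid; split_ifs <;> norm_num
  | succ k ih =>
    unfold avoid; split_ifs
    · exact le_rfl
    · exact sum_nonneg fun z _ => mul_nonneg (P_nonneg G _ _) (ih z)

lemma pois (k : ℕ) :
    ∫⁻ t in Ioi (0 : ℝ), ENNReal.ofReal (Real.exp (-t) * t ^ k / (k.factorial : ℝ)) = 1 := by
  have h1 := Real.Gamma_eq_integral (s := (k : ℝ) + 1) (by positivity)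
  have h2 := Real.GammaIntegral_convergent (s := (k : ℝ) + 1) (by positivity)
  rw [Real.Gamma_nat_eq_factorial] at h1
  simp only [add_sub_cancel_right, Real.rpow_natCast] at h1 h2
  rw [← ofReal_integral_eq_lintegral_ofReal (h2.div_const _), integral_div, ← h1,
    div_self (by positivity), ENNReal.ofReal_one]
  filter_upwards [ae_restrict_mem measurableSet_Ioi] with t ht
  have : 0 < t := ht
  positivity

lemma hit_eq (x y : V) : hit G x y = ∑' k, ENNReal.ofReal (avoid G y k x) := by
  unfold hit
  rw [lintegral_tsum fun k => by fun_prop]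
  refine tsum_congr fun k => ?_
  simp_rw [ENNReal.ofReal_mul' (avoid_nonneg G y k x)]
  rw [lintegral_mul_const _ (by fun_prop), pois, one_mul]

noncomputable def c (x y : V) : ℝ := st G x * P G x y

lemma c_eq (x y : V) : c G x y = if G.Adj x y then 1 / (2 * (G.edgeFinset.card : ℝ)) else 0 := by
  unfold c st P
  split_ifs with h
  · have : (0 : ℝ) < G.degree x := by exact_mod_cast h.degree_pos_left
    field_simp
  · simp

lemma c_symm (x y : V) : c G x y = c G y x := by simp only [c_eq, G.adj_comm]

lemma c_sum (x : V) : ∑ y, c G x y = st G x := by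
  simp only [c_eq]
  rw [← sum_filter, sum_const, st, ← G.card_neighborFinset_eq_degree, nsmul_eq_mul,
    SimpleGraph.neighborFinset_eq_filter]
  ring

noncomputable def L (g : V → ℝ) (x : V) : ℝ := ∑ z, c G x z * (g x - g z)

lemma green (g h : V → ℝ) :
    ∑ x, ∑ z, c G x z * ((g x - g z) * (h x - h z)) = 2 * ∑ x, h x * L G g x := by
  have e1 : ∑ x, ∑ z, c G x z * ((g x - g z) * h x) = ∑ x, h x * L G g x := by
    refine sum_congr rfl fun x _ => ?_
    rw [L, mul_sum]; exact sum_congr rfl fun z _ => by ring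
  have e2 : ∑ x, ∑ z, c G x z * ((g x - g z) * h z) = -∑ x, h x * L G g x := by
    rw [sum_comm, ← e1, ← sum_neg_distrib]
    refine sum_congr rfl fun x _ => ?_
    rw [← sum_neg_distrib]
    exact sum_congr rfl fun z _ => by rw [c_symm G z x]; ring
  rw [two_mul]
  nth_rewrite 2 [← neg_neg (∑ x, h x * L G g x)]
  rw [← e2, ← e1, ← sub_eq_add_neg, ← sum_sub_distrib]
  refine sum_congr rfl fun x _ => ?_
  rw [← sum_sub_distrib]; exact sum_congr rfl fun z _ => by ring

lemma key (h1 : ∑ x, st G x = 1) (τ : ℝ) (H : V → V → ℝ) (H0 : ∀ y, H y y = 0)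
    (H1 : ∀ y x, x ≠ y → H y x = 1 + ∑ z, P G x z * H y z) (H2 : ∀ y x, H y x ≤ τ)
    (h : V → ℝ) (a b : V) : (h a - h b) ^ 2 ≤ 2 * τ * dir G h := by
  have l1 : ∀ y x, x ≠ y → L G (H y) x = st G x := by
    intro y x hx
    have : ∑ z, c G x z * H y z = st G x * ∑ z, P G x z * H y z := by
      rw [mul_sum]; exact sum_congr rfl fun z _ => by rw [c]; ring
    simp only [L, mul_sub, sum_sub_distrib]
    rw [← sum_mul, c_sum, this, H1 y x hx]; ring
  have l2 : ∀ y x, L G (H y) x = st G x - if x = y then 1 else 0 := by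
    intro y x
    split_ifs with hx
    · subst hx
      have e := green G (H x) (fun _ => 1)
      simp only [sub_self, mul_zero, sum_const_zero, one_mul] at e
      rw [← add_sum_erase _ _ (mem_univ x)] at e h1
      rw [sum_congr rfl fun z hz => l1 x z (ne_of_mem_erase hz)] at e
      linarith
    · rw [l1 y x hx, sub_zero]
  have l3 : ∀ u : V → ℝ, ∑ x, u x * L G (fun z => H b z - H a z) x = u a - u b := by
    intro u
    have : ∀ x, L G (fun z => H b z - H a z) x = L G (H b) x - L G (H a) x := by
      intro x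
      simp only [L]; rw [← sum_sub_distrib]; exact sum_congr rfl fun z _ => by ring
    simp only [this, l2]
    have : ∀ x, u x * (st G x - (if x = b then 1 else 0) - (st G x - if x = a then 1 else 0))
        = (if x = a then u x else 0) - if x = b then u x else 0 := by
      intro x; split_ifs <;> ring
    simp only [this, sum_sub_distrib]
    simp
  set g : V → ℝ := fun z => H b z - H a z
  have cs := sum_sq_le_sum_mul_sum_of_sq_le_mul (univ : Finset (V × V))
    (r := fun p => c G p.1 p.2 * ((g p.1 - g p.2) * (h p.1 - h p.2)))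
    (f := fun p => c G p.1 p.2 * ((g p.1 - g p.2) * (g p.1 - g p.2)))
    (g := fun p => c G p.1 p.2 * ((h p.1 - h p.2) ^ 2))
    (fun p _ => mul_nonneg (mul_nonneg (st_nonneg G _) (P_nonneg G _ _)) (mul_self_nonneg _))
    (fun p _ => mul_nonneg (mul_nonneg (st_nonneg G _) (P_nonneg G _ _)) (sq_nonneg _))
    (fun p _ => le_of_eq (by ring))
  simp only [Fintype.sum_prod_type] at cs
  rw [green, green, l3, l3] at cs
  have e : ∑ x, ∑ z, c G x z * (h x - h z) ^ 2 = 2 * dir G h := by
    rw [dir]; simp only [c]; ring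
  have d0 : 0 ≤ dir G h := by
    have : 0 ≤ ∑ x, ∑ z, c G x z * (h x - h z) ^ 2 := sum_nonneg fun x _ => sum_nonneg fun z _ =>
      mul_nonneg (mul_nonneg (st_nonneg G _) (P_nonneg G _ _)) (sq_nonneg _)
    linarith
  have : g a - g b ≤ 2 * τ := by
    simp only [g, H0]; linarith [H2 b a, H2 a b]
  rw [e] at cs
  nlinarith

lemma var_le (h1 : ∑ x, st G x = 1) (h : V → ℝ) (s : ℝ) :
    var G h ≤ ∑ x, st G x * (h x - s) ^ 2 := by
  set m := ∑ y, st G y * h y with hm
  have : ∑ x, st G x * (h x - s) ^ 2 = var G h + (m - s) ^ 2 := by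
    have e : ∀ x, st G x * (h x - s) ^ 2 = st G x * (h x - m) ^ 2
        + 2 * (m - s) * (st G x * h x) - (m - s) * (m + s) * st G x := fun x => by ring
    simp only [e, sum_sub_distrib, sum_add_distrib, ← mul_sum]
    rw [h1, ← hm, var]; ring
  nlinarith [sq_nonneg (m - s)]

theorem result : ∀ (V : Type) [Fintype V] (G : SimpleGraph V), G.Connected →
    tsp G ≤ 64 * thit G := by
  intro V _ G hG
  by_cases hτ : thit G = ⊤
  · rw [hτ, ENNReal.mul_top (by norm_num)]; exact le_top
  have hle : ∀ x y, ∑' k, ENNReal.ofReal (avoid G y k x) ≤ thit G := fun x y => by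
    rw [← hit_eq]; exact le_iSup₂_of_le (f := fun x y => hit G x y) x y le_rfl
  have hs : ∀ x y, Summable fun k => avoid G y k x := fun x y => by
    have := ENNReal.summable_toReal (ne_top_of_le_ne_top hτ (hle x y))
    simpa only [ENNReal.toReal_ofReal (avoid_nonneg G _ _ _)] using this
  set τ := (thit G).toReal
  have main : ∀ (δ : ℝ) (h : V → ℝ), var G h = 1 → ∑ x with h x ≠ 0, st G x ≤ δ →
      1 ≤ 2 * τ * (δ * dir G h) := by
    intro δ h hv hδ
    have h1 : ∑ x, st G x = 1 := by
      have e : ∑ x, (G.degree x : ℝ) = 2 * (G.edgeFinset.card : ℝ) := by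
        exact_mod_cast G.sum_degrees_eq_twice_card_edges
      simp only [st]
      rw [← sum_div, e, div_self]
      intro h0
      simp [var, st, h0] at hv
    have k := key G h1 τ (fun y x => ∑' k, avoid G y k x)
      (fun y => by
        have : ∀ k, avoid G y k y = 0 := fun k => by cases k <;> simp [avoid]
        simp [this])
      (fun y x hx => by
        rw [(hs x y).tsum_eq_zero_add]
        simp only [avoid, if_neg hx]
        rw [Summable.tsum_finsetSum fun z _ => (hs z y).mul_left _]
        simp only [tsum_mul_left])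
      (fun y x => by
        have := hle x y
        rw [← ENNReal.ofReal_tsum_of_nonneg (fun k => avoid_nonneg G _ _ _) (hs x y)] at this
        exact (ENNReal.ofReal_le_iff_le_toReal hτ).1 this) h
    obtain ⟨a⟩ := hG.nonempty
    have k0 : 0 ≤ 2 * τ * dir G h := (sq_nonneg _).trans (k a a)
    by_cases hy : ∃ y, h y = 0
    · obtain ⟨y, hy⟩ := hy
      have e := var_le G h1 h (h y)
      have : ∑ x, st G x * (h x - h y) ^ 2 ≤ ∑ x with h x ≠ 0, st G x * (2 * τ * dir G h) := by
        rw [sum_filter]
        refine sum_le_sum fun x _ => ?_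
        split_ifs with hx
        · exact mul_le_mul_of_nonneg_left (k x y) (st_nonneg G x)
        · rw [not_not.1 hx, hy]; simp
      rw [← sum_mul] at this
      nlinarith
    · push Not at hy
      rw [filter_true_of_mem fun x _ => hy x, h1] at hδ
      have e := var_le G h1 h (h a)
      have : ∑ x, st G x * (h x - h a) ^ 2 ≤ ∑ x, st G x * (2 * τ * dir G h) :=
        sum_le_sum fun x _ => mul_le_mul_of_nonneg_left (k x a) (st_nonneg G x)
      rw [← sum_mul, h1] at this
      nlinarith
  have h0 : 0 ≤ 4 * ⨅ x, st G x := mul_nonneg (by norm_num) (Real.iInf_nonneg (st_nonneg G))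
  have pt : ∀ δ ∈ Ioo (4 * ⨅ x, st G x) 16,
      2 / (ENNReal.ofReal δ * prof G δ) ≤ 4 * thit G := by
    intro δ hδ
    have d0 : 0 < δ := h0.trans_lt hδ.1
    have : (ENNReal.ofReal δ * prof G δ)⁻¹ ≤ 2 * thit G := by
      rw [ENNReal.inv_le_iff_inv_le, ← ENNReal.div_le_iff' (by simpa using d0) (by simp)]
      refine le_iInf₂ fun h hh => ?_
      rw [ENNReal.div_le_iff' (by simpa using d0) (by simp), ENNReal.inv_le_iff_le_mul
        (fun e => absurd e (ENNReal.mul_ne_top (by simp) (by simp)))
        (fun e => absurd e (ENNReal.mul_ne_top (by simp) hτ)),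
        ← ENNReal.ofReal_toReal hτ, ← ENNReal.ofReal_mul d0.le, ← ENNReal.ofReal_ofNat,
        ← ENNReal.ofReal_mul (by norm_num), ← ENNReal.ofReal_mul (by positivity),
        ← ENNReal.ofReal_one]
      exact ENNReal.ofReal_le_ofReal (main δ h hh.1 hh.2)
    calc _ = 2 * (ENNReal.ofReal δ * prof G δ)⁻¹ := rfl
      _ ≤ 2 * (2 * thit G) := by gcongr
      _ = 4 * thit G := by ring
  calc tsp G ≤ ∫⁻ _ in Ioo (4 * ⨅ x, st G x) 16, 4 * thit G :=
        setLIntegral_mono' measurableSet_Ioo pt
    _ = 4 * thit G * ENNReal.ofReal (16 - 4 * ⨅ x, st G x) := by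
        rw [setLIntegral_const, Real.volume_Ioo]
    _ ≤ 4 * thit G * 16 := by
        gcongr
        rw [← ENNReal.ofReal_ofNat]
        exact ENNReal.ofReal_le_ofReal (by linarith)
    _ = 64 * thit G := by ring

end Pool.Agent.Results.MP_cb142b_pr.AllGraphs
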